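import Mathlib

/-!
Number of connected components when an edge is added.
-/

namespace Pool.Agent.W401.KP

open SimpleGraph

variable {V : Type*}

theorem reach_insert_edge (F : Set (Sym2 V)) (u v a b : V)
    (h : (fromEdgeSet (insert s(u, v) F)).Reachable a b) :
    (fromEdgeSet F).Reachable a b ∨
      ((fromEdgeSet F).Reachable a u ∧ (fromEdgeSet F).Reachable v b) ∨
      ((fromEdgeSet F).Reachable a v ∧ (fromEdgeSet F).Reachable u b) := by
  rw [reachable_iff_reflTransGen] at h
  induction h with
  | refl => exact Or.inl (Reachable.refl _)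
  | @tail c d _ hs ih =>
    rw [fromEdgeSet_adj, Set.mem_insert_iff] at hs
    obtain ⟨hs | hs, hne⟩ := hs
    · rw [Sym2.eq_iff] at hs
      rcases hs with ⟨rfl, rfl⟩ | ⟨rfl, rfl⟩
      · rcases ih with ih | ⟨h1, h2⟩ | ⟨h1, h2⟩
        · exact Or.inr (Or.inl ⟨ih, Reachable.refl _⟩)
        · exact Or.inr (Or.inl ⟨h1, Reachable.refl _⟩)
        · exact Or.inl h1
      · rcases ih with ih | ⟨h1, h2⟩ | ⟨h1, h2⟩
        · exact Or.inr (Or.inr ⟨ih, Reachable.refl _⟩)
        · exact Or.inl h1
        · exact Or.inr (Or.inr ⟨h1, Reachable.refl _⟩)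
    · have hadj : (fromEdgeSet F).Reachable c d :=
        (show (fromEdgeSet F).Adj c d from by rw [fromEdgeSet_adj]; exact ⟨hs, hne⟩).reachable
      rcases ih with ih | ⟨h1, h2⟩ | ⟨h1, h2⟩
      · exact Or.inl (ih.trans hadj)
      · exact Or.inr (Or.inl ⟨h1, h2.trans hadj⟩)
      · exact Or.inr (Or.inr ⟨h1, h2.trans hadj⟩)

theorem card_comp_insert_of_reach (F : Set (Sym2 V)) (u v : V)
    (huv : (fromEdgeSet F).Reachable u v) :
    Nat.card (fromEdgeSet (insert s(u, v) F)).ConnectedComponent =
      Nat.card (fromEdgeSet F).ConnectedComponent := by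
  have hle : fromEdgeSet F ≤ fromEdgeSet (insert s(u, v) F) :=
    fromEdgeSet_mono (Set.subset_insert _ _)
  have key : ∀ a b, (fromEdgeSet (insert s(u, v) F)).Reachable a b ↔
      (fromEdgeSet F).Reachable a b := by
    intro a b
    constructor
    · intro h
      rcases reach_insert_edge F u v a b h with h | ⟨h1, h2⟩ | ⟨h1, h2⟩
      · exact h
      · exact (h1.trans huv).trans h2
      · exact (h1.trans huv.symm).trans h2
    · intro h
      exact h.mono hle
  apply Nat.card_congr
  refine Quot.congr (Equiv.refl V) ?_
  intro a b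
  exact key a b

theorem card_comp_insert_of_not_reach [Finite V] (F : Set (Sym2 V)) (u v : V)
    (huv : ¬ (fromEdgeSet F).Reachable u v) :
    Nat.card (fromEdgeSet (insert s(u, v) F)).ConnectedComponent + 1 =
      Nat.card (fromEdgeSet F).ConnectedComponent := by
  classical
  have hne : u ≠ v := by rintro rfl; exact huv (Reachable.refl _)
  have hle : fromEdgeSet F ≤ fromEdgeSet (insert s(u, v) F) :=
    fromEdgeSet_mono (Set.subset_insert _ _)
  have huv' : (fromEdgeSet (insert s(u, v) F)).Reachable u v :=
    (show (fromEdgeSet (insert s(u, v) F)).Adj u v from by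
      rw [fromEdgeSet_adj]; exact ⟨Set.mem_insert _ _, hne⟩).reachable
  set G := fromEdgeSet F with hG
  set G' := fromEdgeSet (insert s(u, v) F) with hG'
  let f : {c : G.ConnectedComponent // c ≠ G.connectedComponentMk v} → G'.ConnectedComponent :=
    fun c => c.1.map (Hom.ofLE hle)
  have hf : ∀ a (ha : G.connectedComponentMk a ≠ G.connectedComponentMk v),
      f ⟨G.connectedComponentMk a, ha⟩ = G'.connectedComponentMk a := by
    intro a ha
    rfl
  have hbij : Function.Bijective f := by
    constructor
    · rintro ⟨c, hc⟩ ⟨d, hd⟩ hcd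
      induction c using ConnectedComponent.ind with | _ a => ?_
      induction d using ConnectedComponent.ind with | _ b => ?_
      rw [hf, hf, ConnectedComponent.eq] at hcd
      apply Subtype.ext
      rw [ConnectedComponent.eq]
      rcases reach_insert_edge F u v a b hcd with h | ⟨h1, h2⟩ | ⟨h1, h2⟩
      · exact h
      · exact absurd (ConnectedComponent.eq.mpr h2.symm) hd
      · exact absurd (ConnectedComponent.eq.mpr h1) hc
    · intro c
      induction c using ConnectedComponent.ind with | _ a => ?_
      by_cases ha : G.Reachable a v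
      · refine ⟨⟨G.connectedComponentMk u, fun h => huv (ConnectedComponent.eq.mp h)⟩, ?_⟩
        rw [hf, ConnectedComponent.eq]
        exact huv'.trans (ha.symm.mono hle)
      · exact ⟨⟨G.connectedComponentMk a, fun h => ha (ConnectedComponent.eq.mp h)⟩, hf a _⟩
  rw [← Nat.card_congr (Equiv.ofBijective f hbij)]
  have h1 : Nat.card G.ConnectedComponent =
      Nat.card (Option {c : G.ConnectedComponent // c ≠ G.connectedComponentMk v}) :=
    Nat.card_congr (Equiv.optionSubtypeNe (G.connectedComponentMk v)).symm
  rw [h1, Finite.card_option]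

theorem card_comp_empty : Nat.card (fromEdgeSet (∅ : Set (Sym2 V))).ConnectedComponent =
    Nat.card V := by
  apply (Nat.card_congr _).symm
  refine Equiv.ofBijective (fromEdgeSet (∅ : Set (Sym2 V))).connectedComponentMk ⟨?_, ?_⟩
  · intro a b h
    rw [ConnectedComponent.eq, reachable_iff_reflTransGen] at h
    induction h with
    | refl => rfl
    | tail _ hs _ =>
      rw [fromEdgeSet_adj] at hs
      exact absurd hs.1 (Set.notMem_empty _)
  · intro c
    induction c using ConnectedComponent.ind with | _ a => ?_
    exact ⟨a, rfl⟩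

end Pool.Agent.W401.KP
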