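import Pool.Agent.W810.KP.Defs
import Pool.Agent.W401.KP.Comp

/-!
KDER: value at `0` and derivative of the mean number of clusters (project KP, MP_5f99b0_pr).
-/

namespace Pool.Agent.W401.KP

open H974 H12S H973N Finset SimpleGraph
open Pool.Agent.W810.KP

/-- The vertices of the grid as vertices of the lattice. -/
def vi (n : ℕ) : (Fin n × Fin n) ↪ (ℤ × ℤ) :=
  ⟨fun u => ((u.1 : ℤ), (u.2 : ℤ)), by
    rintro ⟨a, b⟩ ⟨c, d⟩ h
    simp only [Prod.mk.injEq, Nat.cast_inj] at h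
    exact Prod.ext (Fin.ext h.1) (Fin.ext h.2)⟩

theorem vi_apply (n : ℕ) (u : Fin n × Fin n) : vi n u = ((u.1 : ℤ), (u.2 : ℤ)) := rfl

theorem toS_inj : Function.Injective (fun e : Edg => (s(src e, tgt e) : Sym2 (ℤ × ℤ))) := by
  rintro ⟨x, y, b⟩ ⟨x', y', b'⟩ h1
  simp only at h1
  rw [Sym2.eq_iff] at h1
  cases b <;> cases b'
  · simp only [src_mk, tgt_false, Prod.mk.injEq, and_true] at h1 ⊢
    omega
  · simp only [src_mk, tgt_false, tgt_true, Prod.mk.injEq] at h1
    exfalso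
    omega
  · simp only [src_mk, tgt_false, tgt_true, Prod.mk.injEq] at h1
    exfalso
    omega
  · simp only [src_mk, tgt_true, Prod.mk.injEq, and_true] at h1 ⊢
    omega

/-- Edges as pairs of lattice points. -/
def toS : Edg ↪ Sym2 (ℤ × ℤ) := ⟨fun e => s(src e, tgt e), toS_inj⟩

theorem toS_apply (e : Edg) : toS e = s(src e, tgt e) := rfl

/-- Pairs of grid points as pairs of lattice points. -/
def si (n : ℕ) : Sym2 (Fin n × Fin n) ↪ Sym2 (ℤ × ℤ) := (vi n).sym2Map

theorem si_mk (n : ℕ) (u v : Fin n × Fin n) : si n s(u, v) = s(vi n u, vi n v) := rfl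

theorem mem_gridE (n : ℕ) (u v : Fin n × Fin n) :
    s(u, v) ∈ gridE n ↔ |(u.1 : ℤ) - (v.1 : ℤ)| + |(u.2 : ℤ) - (v.2 : ℤ)| = 1 := by
  unfold gridE
  refine (@Set.mem_toFinset _ _ (_) _).trans ?_
  rw [SimpleGraph.mem_edgeSet]
  rfl

theorem map_eq (n : ℕ) :
    (gridE n).map (si n) = (RE 0 ((n:ℤ) - 1) 0 ((n:ℤ) - 1)).map toS := by
  ext s
  rw [Finset.mem_map, Finset.mem_map]
  constructor
  · rintro ⟨s', hs', rfl⟩
    induction s' using Sym2.ind with | _ u v => ?_
    rw [mem_gridE] at hs'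
    rw [si_mk]
    obtain ⟨⟨a, ha⟩, ⟨b, hb⟩⟩ := u
    obtain ⟨⟨c, hc⟩, ⟨d, hd⟩⟩ := v
    simp only [vi_apply] at hs' ⊢
    have key : ((c:ℤ) = a + 1 ∧ (d:ℤ) = b) ∨ ((a:ℤ) = c + 1 ∧ (d:ℤ) = b) ∨
        ((c:ℤ) = a ∧ (d:ℤ) = b + 1) ∨ ((c:ℤ) = a ∧ (b:ℤ) = d + 1) := by
      rcases abs_cases ((a:ℤ) - c) with ⟨h1, h2⟩ | ⟨h1, h2⟩ <;>
        rcases abs_cases ((b:ℤ) - d) with ⟨h3, h4⟩ | ⟨h3, h4⟩ <;> omega
    rcases key with ⟨h1, h2⟩ | ⟨h1, h2⟩ | ⟨h1, h2⟩ | ⟨h1, h2⟩
    · refine ⟨((a:ℤ), (b:ℤ), true), ?_, ?_⟩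
      · rw [mem_RE_true]; omega
      · rw [toS_apply, src_mk, tgt_true, h1, h2]
    · refine ⟨((c:ℤ), (d:ℤ), true), ?_, ?_⟩
      · rw [mem_RE_true]; omega
      · rw [toS_apply, src_mk, tgt_true, h1, h2]; exact Sym2.eq_swap
    · refine ⟨((a:ℤ), (b:ℤ), false), ?_, ?_⟩
      · rw [mem_RE_false]; omega
      · rw [toS_apply, src_mk, tgt_false, h1, h2]
    · refine ⟨((c:ℤ), (d:ℤ), false), ?_, ?_⟩
      · rw [mem_RE_false]; omega
      · rw [toS_apply, src_mk, tgt_false, h1, h2]; exact Sym2.eq_swap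
  · rintro ⟨⟨x, y, b⟩, he, rfl⟩
    cases b
    · rw [mem_RE_false] at he
      refine ⟨s((⟨x.toNat, by omega⟩, ⟨y.toNat, by omega⟩),
        (⟨x.toNat, by omega⟩, ⟨(y + 1).toNat, by omega⟩)), ?_, ?_⟩
      · rw [mem_gridE]
        have h1 : ((x.toNat : ℕ) : ℤ) = x := Int.toNat_of_nonneg he.1
        have h2 : ((y.toNat : ℕ) : ℤ) = y := Int.toNat_of_nonneg (by omega)
        have h3 : (((y + 1).toNat : ℕ) : ℤ) = y + 1 := Int.toNat_of_nonneg (by omega)
        simp only [h1, h2, h3]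
        simp
      · have h1 : ((x.toNat : ℕ) : ℤ) = x := Int.toNat_of_nonneg he.1
        have h2 : ((y.toNat : ℕ) : ℤ) = y := Int.toNat_of_nonneg (by omega)
        have h3 : (((y + 1).toNat : ℕ) : ℤ) = y + 1 := Int.toNat_of_nonneg (by omega)
        rw [si_mk, vi_apply, vi_apply, toS_apply, src_mk, tgt_false]
        simp only [h1, h2, h3]
    · rw [mem_RE_true] at he
      refine ⟨s((⟨x.toNat, by omega⟩, ⟨y.toNat, by omega⟩),
        (⟨(x + 1).toNat, by omega⟩, ⟨y.toNat, by omega⟩)), ?_, ?_⟩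
      · rw [mem_gridE]
        have h1 : ((x.toNat : ℕ) : ℤ) = x := Int.toNat_of_nonneg he.1
        have h2 : ((y.toNat : ℕ) : ℤ) = y := Int.toNat_of_nonneg (by omega)
        have h3 : (((x + 1).toNat : ℕ) : ℤ) = x + 1 := Int.toNat_of_nonneg (by omega)
        simp only [h1, h2, h3]
        simp
      · have h1 : ((x.toNat : ℕ) : ℤ) = x := Int.toNat_of_nonneg he.1
        have h2 : ((y.toNat : ℕ) : ℤ) = y := Int.toNat_of_nonneg (by omega)
        have h3 : (((x + 1).toNat : ℕ) : ℤ) = x + 1 := Int.toNat_of_nonneg (by omega)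
        rw [si_mk, vi_apply, vi_apply, toS_apply, src_mk, tgt_true]
        simp only [h1, h2, h3]

/-- Connection of the two elements of a pair. -/
def RT {W : Type*} (t : Sym2 W) (G : Set (Sym2 W)) : Prop :=
  ∃ a b, t = s(a, b) ∧ (fromEdgeSet G).Reachable a b

theorem RT_mk {W : Type*} (a b : W) (G : Set (Sym2 W)) :
    RT s(a, b) G ↔ (fromEdgeSet G).Reachable a b := by
  constructor
  · rintro ⟨c, d, h, hr⟩
    rw [Sym2.eq_iff] at h
    rcases h with ⟨rfl, rfl⟩ | ⟨rfl, rfl⟩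
    · exact hr
    · exact hr.symm
  · intro h
    exact ⟨a, b, rfl, h⟩

theorem RT_si (n : ℕ) (u v : Fin n × Fin n) (F : Finset (Sym2 (Fin n × Fin n))) :
    RT (si n s(u, v)) (↑(F.map (si n)) : Set (Sym2 (ℤ × ℤ))) ↔
      (fromEdgeSet (↑F : Set (Sym2 (Fin n × Fin n)))).Reachable u v := by
  rw [si_mk, RT_mk]
  constructor
  · intro h
    rw [reachable_iff_reflTransGen] at h
    have key : ∀ b, Relation.ReflTransGen
        (fromEdgeSet (↑(F.map (si n)) : Set (Sym2 (ℤ × ℤ)))).Adj (vi n u) b →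
        ∃ b', b = vi n b' ∧
          (fromEdgeSet (↑F : Set (Sym2 (Fin n × Fin n)))).Reachable u b' := by
      intro b hb
      induction hb with
      | refl => exact ⟨u, rfl, Reachable.refl _⟩
      | @tail c d _ hs ih =>
        obtain ⟨c', rfl, hc⟩ := ih
        rw [fromEdgeSet_adj, Finset.mem_coe, Finset.mem_map] at hs
        obtain ⟨⟨s', hs', hsd⟩, hne⟩ := hs
        induction s' using Sym2.ind with | _ x y => ?_
        rw [si_mk, Sym2.eq_iff] at hsd
        rcases hsd with ⟨h1, h2⟩ | ⟨h1, h2⟩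
        · have h1' := (vi n).injective h1
          subst h1'
          refine ⟨y, h2.symm, hc.trans ?_⟩
          have hxy : x ≠ y := by rintro rfl; exact hne h2
          exact (show (fromEdgeSet (↑F : Set (Sym2 (Fin n × Fin n)))).Adj x y from by
            rw [fromEdgeSet_adj]; exact ⟨Finset.mem_coe.mpr hs', hxy⟩).reachable
        · have h2' := (vi n).injective h2
          subst h2'
          refine ⟨x, h1.symm, hc.trans ?_⟩
          have hxy : x ≠ y := by rintro rfl; exact hne h1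
          exact (show (fromEdgeSet (↑F : Set (Sym2 (Fin n × Fin n)))).Adj x y from by
            rw [fromEdgeSet_adj]; exact ⟨Finset.mem_coe.mpr hs', hxy⟩).symm.reachable
    obtain ⟨b', hb, hr⟩ := key _ h
    rw [(vi n).injective hb]
    exact hr
  · intro h
    rw [reachable_iff_reflTransGen] at h ⊢
    induction h with
    | refl => exact Relation.ReflTransGen.refl
    | @tail c d _ hs ih =>
      refine ih.tail ?_
      rw [fromEdgeSet_adj] at hs ⊢
      refine ⟨?_, fun h => hs.2 ((vi n).injective h)⟩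
      rw [Finset.mem_coe, Finset.mem_map]
      exact ⟨s(c, d), Finset.mem_coe.mp hs.1, rfl⟩

theorem adj_toS (F : Finset Edg) (a b : ℤ × ℤ) :
    (fromEdgeSet (↑(F.map toS) : Set (Sym2 (ℤ × ℤ)))).Adj a b ↔ Adj (↑F : Set Edg) a b := by
  rw [fromEdgeSet_adj, Finset.mem_coe, Finset.mem_map]
  constructor
  · rintro ⟨⟨e, he, h⟩, hne⟩
    refine ⟨e, Finset.mem_coe.mpr he, ?_⟩
    rw [toS_apply, Sym2.eq_iff] at h
    exact h
  · rintro ⟨e, he, h⟩
    refine ⟨⟨e, Finset.mem_coe.mp he, ?_⟩, ?_⟩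
    · rw [toS_apply, Sym2.eq_iff]; exact h
    · rintro rfl
      obtain ⟨x, y, b⟩ := e
      cases b
      · simp only [src_mk, tgt_false] at h
        rcases h with ⟨h1, h2⟩ | ⟨h1, h2⟩
        · have := h2.trans h1.symm
          simp at this
        · have := h2.trans h1.symm
          simp at this
      · simp only [src_mk, tgt_true] at h
        rcases h with ⟨h1, h2⟩ | ⟨h1, h2⟩
        · have := h2.trans h1.symm
          simp at this
        · have := h2.trans h1.symm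
          simp at this

theorem RT_toS (e : Edg) (F : Finset Edg) :
    RT (toS e) (↑(F.map toS) : Set (Sym2 (ℤ × ℤ))) ↔ Reach (↑F : Set Edg) (src e) (tgt e) := by
  rw [toS_apply, RT_mk, reachable_iff_reflTransGen]
  have : (fromEdgeSet (↑(F.map toS) : Set (Sym2 (ℤ × ℤ)))).Adj = Adj (↑F : Set Edg) := by
    funext a b
    exact propext (adj_toS F a b)
  rw [this]
  rfl

theorem meanK_eq (n : ℕ) (q : ℝ) :
    meanK n q = Ex (fun _ => q) (gridE n) (fun F => (clus n F : ℝ)) := by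
  unfold meanK Ex
  apply Finset.sum_congr rfl
  intro F hF
  rw [Finset.prod_const, Finset.prod_const, Finset.card_sdiff_of_subset (Finset.mem_powerset.mp hF)]

/-- The term of an edge. -/
noncomputable def tm (n : ℕ) (q : ℝ) (t : Sym2 (ℤ × ℤ)) : ℝ :=
  - Pr (fun _ => q) (((gridE n).map (si n)).erase t)
    (fun G => ¬ RT t (↑G : Set (Sym2 (ℤ × ℤ))))

theorem tm_si (n : ℕ) (q : ℝ) (s : Sym2 (Fin n × Fin n)) (hs : s ∈ gridE n) :
    Ex (fun _ => q) ((gridE n).erase s) (fun F => (clus n (insert s F) : ℝ) - (clus n F : ℝ)) =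
      tm n q (si n s) := by
  unfold tm
  rw [← Finset.map_erase, Pr_map]
  unfold Pr
  rw [← neg_one_mul, ← Ex_mul_left]
  apply Ex_congr
  intro F _
  induction s using Sym2.ind with | _ u v => ?_
  have huv : u ≠ v := by
    rintro rfl
    rw [mem_gridE] at hs
    simp at hs
  by_cases h : (fromEdgeSet (↑F : Set (Sym2 (Fin n × Fin n)))).Reachable u v
  · rw [ind_not_of (by rw [not_not, RT_si]; exact h)]
    have := card_comp_insert_of_reach _ u v h
    unfold clus
    rw [Finset.coe_insert, this]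
    simp
  · rw [ind_of (P := ¬ RT ((si n) s(u, v)) (↑(map (si n) F) : Set (Sym2 (ℤ × ℤ))))
      (by rw [RT_si]; exact h)]
    have := card_comp_insert_of_not_reach _ u v h
    unfold clus
    rw [Finset.coe_insert, ← this]
    push_cast
    ring

theorem tm_toS (n : ℕ) (q : ℝ) (e : Edg) (he : e ∈ RE 0 ((n:ℤ) - 1) 0 ((n:ℤ) - 1)) :
    tm n q (toS e) = - (1 - PQ q (RE 0 ((n:ℤ) - 1) 0 ((n:ℤ) - 1)) (Con e)) := by
  unfold tm
  rw [map_eq, ← Finset.map_erase, Pr_map, Pr_not]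
  congr 2
  have h1 : PQ q (RE 0 ((n:ℤ) - 1) 0 ((n:ℤ) - 1)) (Con e) =
      Pr (fun _ => q) ((RE 0 ((n:ℤ) - 1) 0 ((n:ℤ) - 1)).erase e) (Con e) := by
    apply Pr_local (Finset.erase_subset _ _)
    intro F hF
    unfold Pool.Agent.W810.KP.Con
    have : (F ∩ (RE 0 ((n:ℤ) - 1) 0 ((n:ℤ) - 1)).erase e).erase e = F.erase e := by
      ext x
      simp only [Finset.mem_erase, Finset.mem_inter]
      constructor
      · rintro ⟨h1, h2, -⟩; exact ⟨h1, h2⟩
      · rintro ⟨h1, h2⟩; exact ⟨h1, h2, h1, hF h2⟩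
    rw [this]
  rw [h1]
  apply Pr_congr
  intro F hF
  rw [RT_toS]
  unfold Pool.Agent.W810.KP.Con
  have : F.erase e = F := Finset.erase_eq_of_notMem (fun h => by
    have := hF h
    simp at this)
  rw [this]

theorem main : S_kder := by
  intro n
  constructor
  · rw [meanK_eq]
    unfold Ex
    rw [Finset.sum_eq_single ∅]
    · simp only [Finset.prod_empty, sub_zero, Finset.prod_const_one, mul_one, one_mul]
      unfold clus
      rw [Finset.coe_empty, card_comp_empty]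
      simp [sq]
    · intro F _ hF
      obtain ⟨x, hx⟩ := Finset.nonempty_iff_ne_empty.mpr hF
      rw [Finset.prod_eq_zero hx rfl]
      simp
    · intro h
      exact absurd (Finset.empty_mem_powerset _) h
  · intro q
    have hfun : meanK n = fun q => Ex (fun _ => q) (gridE n) (fun F => (clus n F : ℝ)) := by
      funext q; exact meanK_eq n q
    rw [hfun]
    have h := Ex_hasDerivAt (fun q _ => q) (fun _ => (1:ℝ)) q
      (fun _ => hasDerivAt_id q) (gridE n) (fun F => (clus n F : ℝ))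
    have hsum : (∑ e ∈ gridE n, (1:ℝ) * Ex (fun _ => q) ((gridE n).erase e)
        (fun F => (clus n (insert e F) : ℝ) - (clus n F : ℝ))) =
        - ∑ e ∈ RE 0 ((n:ℤ) - 1) 0 ((n:ℤ) - 1),
          (1 - PQ q (RE 0 ((n:ℤ) - 1) 0 ((n:ℤ) - 1)) (Con e)) := by
      rw [← Finset.sum_neg_distrib, ← Finset.sum_congr rfl (tm_toS n q),
        ← Finset.sum_map (RE 0 ((n:ℤ) - 1) 0 ((n:ℤ) - 1)) toS (tm n q), ← map_eq,
        Finset.sum_map]
      apply Finset.sum_congr rfl
      intro s hs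
      rw [one_mul, tm_si n q s hs]
    rw [hsum] at h
    exact h

end Pool.Agent.W401.KP
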